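import Pool.Agent.MP_05ef64_al.Main4

/-!
# Embedding dimension four: all Betti numbers are uniformly bounded, or none is
-/

namespace Pool.Agent.Results.MP_05ef64_al.FourGenerators

/-- `b_i(R_Γ) ≤ N` for the numerical semigroup `Γ` generated by `g`: the quotient of
`k[x_1, …, x_e]` by the kernel of `x_l ↦ t ^ g_l` has a free resolution (by matrices `d n` from
rank `r (n+1)` to rank `r n`, `r 0 = 1`) whose `i`-th module has rank at most `N`.  This is the
formulation of the frozen statements of the problem. -/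
def BettiLE (k : Type*) [Field k] {e : ℕ} (g : Fin e → ℕ) (i N : ℕ) : Prop :=
  ∃ (r : ℕ → ℕ)
    (d : ∀ n : ℕ, Matrix (Fin (r n)) (Fin (r (n + 1))) (MvPolynomial (Fin e) k)),
    r 0 = 1 ∧
    (∀ v : Fin (r 0) → MvPolynomial (Fin e) k,
      v ∈ LinearMap.range (d 0).mulVecLin ↔
        ∀ a, v a ∈ RingHom.ker
          (MvPolynomial.aeval
            (fun l : Fin e => (Polynomial.X : Polynomial k) ^ g l))) ∧
    (∀ n : ℕ, LinearMap.ker (d n).mulVecLin = LinearMap.range (d (n + 1)).mulVecLin) ∧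
    r i ≤ N

/-- `g` is the minimal generating system `g_0 < ⋯ < g_{e-1}` of a numerical semigroup. -/
def IsNumSemigroupGens {e : ℕ} (g : Fin e → ℕ) : Prop :=
  StrictMono g ∧
    ((AddSubmonoid.closure (Set.range g) : Set ℕ)ᶜ).Finite ∧
    ∀ j : Fin e, g j ∉ AddSubmonoid.closure (g '' {l | l ≠ j})

/-- For every field `k`, every family `F` of numerical semigroups of embedding dimension `4` and
all `1 ≤ i, j ≤ 3`: if the `i`-th Betti numbers of the members of `F` are at most `N`, then their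
`j`-th Betti numbers are at most `(N + 1) (2 N + 1)² + N + 1`.  In particular `𝓑_1(F)`, `𝓑_2(F)`,
`𝓑_3(F)` are all finite or all infinite. -/
theorem result (k : Type*) [Field k] (F : Set (Fin 4 → ℕ)) (hF : ∀ g ∈ F, IsNumSemigroupGens g)
    (i j N : ℕ) (hi1 : 1 ≤ i) (hi3 : i ≤ 3) (hj1 : 1 ≤ j) (hj3 : j ≤ 3)
    (h : ∀ g ∈ F, BettiLE k g i N) :
    ∀ g ∈ F, BettiLE k g j ((N + 1) * (2 * N + 1) ^ 2 + N + 1) := by
  intro g hgF
  have hg := hF g hgF
  have hpos : ∀ l, 0 < g l := by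
    intro l
    rcases Nat.eq_zero_or_pos (g l) with h0 | h0
    · exact absurd (h0 ▸ AddSubmonoid.zero_mem _) (hg.2.2 l)
    · exact h0
  obtain ⟨r, d, h0, h1, h2, h3⟩ := h g hgF
  obtain ⟨r', d', hR, hb⟩ :=
    Pool.Agent.MP_05ef64_al.bound4 hpos hg.2.1 ⟨h0, h1, h2⟩ hi1 hi3 h3
  exact ⟨r', d', hR.r0, hR.aug, hR.exact, hb j hj1 hj3⟩

end Pool.Agent.Results.MP_05ef64_al.FourGenerators
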